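import Mathlib

/-!
# MP_7f0846_co : the side of a solvable d-dimensional queens board exceeds 2^d

We prove, for every `d ≥ 3`: if `n ≥ 2` and `n ^ (d - 1)` mutually non-attacking queens can be
placed on the `(n,d)`-board, then `n > 2 ^ d`.  Consequently the necessity of the condition
`gcd (n, (2^d - 1)!) = 1` asked for in Q1 holds for all `n ≤ 2 ^ d`, in every dimension `d ≥ 3`.
-/

namespace Pool.Agent.Results.MP_7f0846_co.SideExceedsTwoPow

/-- `a` lies on the `(n,d)`-board `{1, ..., n}^d`. -/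
def OnBoard (n d : ℕ) (a : Fin d → ℤ) : Prop := ∀ i, 1 ≤ a i ∧ a i ≤ (n : ℤ)

/-- A queen on `a` attacks `b` (with `b ≠ a`) when `b - a = k * ε` for an integer `k ≠ 0` and some
nonzero `ε` with all coordinates in `{-1, 0, 1}`. -/
def Attacks {d : ℕ} (a b : Fin d → ℤ) : Prop :=
  ∃ k : ℤ, k ≠ 0 ∧ ∃ ε : Fin d → ℤ, ε ≠ 0 ∧ (∀ i, ε i = -1 ∨ ε i = 0 ∨ ε i = 1) ∧
    ∀ i, b i - a i = k * ε i

/-- The `(n,d)`-queens problem has a solution: `n ^ (d - 1)` mutually non-attacking queens can be
placed on the `(n,d)`-board. -/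
def HasSolution (n d : ℕ) : Prop :=
  ∃ Q : Finset (Fin d → ℤ), (∀ a ∈ Q, OnBoard n d a) ∧
    (∀ a ∈ Q, ∀ b ∈ Q, a ≠ b → ¬ Attacks a b) ∧ Q.card = n ^ (d - 1)

/-- Two distinct queens are at Chebyshev distance at least two. -/
lemma far {d : ℕ} {Q : Finset (Fin d → ℤ)} (hQ : ∀ a ∈ Q, ∀ b ∈ Q, a ≠ b → ¬ Attacks a b)
    {a b : Fin d → ℤ} (ha : a ∈ Q) (hb : b ∈ Q) (h : ∀ i, |a i - b i| ≤ 1) : a = b := by
  by_contra hne
  refine hQ a ha b hb hne ⟨1, one_ne_zero, fun i => b i - a i, ?_, ?_, ?_⟩
  · intro h0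
    apply hne
    funext i
    have := congrFun h0 i
    simp only [Pi.zero_apply] at this
    linarith
  · intro i
    have h1 := abs_le.mp (h i)
    obtain ⟨h2, h3⟩ := h1
    have : b i - a i = -1 ∨ b i - a i = 0 ∨ b i - a i = 1 := by omega
    exact this
  · intro i
    ring

/-- Every line of the board parallel to axis `j` carries a queen. -/
lemma line {n d : ℕ} {Q : Finset (Fin d → ℤ)} (hB : ∀ a ∈ Q, OnBoard n d a)
    (hQ : ∀ a ∈ Q, ∀ b ∈ Q, a ≠ b → ¬ Attacks a b) (hc : Q.card = n ^ (d - 1))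
    (j : Fin d) (p : Fin d → ℤ) (hp : ∀ i, i ≠ j → 1 ≤ p i ∧ p i ≤ (n : ℤ)) :
    ∃ q ∈ Q, ∀ i, i ≠ j → q i = p i := by
  classical
  set S : Finset (Fin d → ℤ) :=
    Fintype.piFinset (fun i => if i = j then ({1} : Finset ℤ) else Finset.Icc 1 (n : ℤ)) with hS
  have hScard : S.card = n ^ (d - 1) := by
    rw [hS, Fintype.card_piFinset, ← Finset.mul_prod_erase Finset.univ _ (Finset.mem_univ j)]
    rw [Finset.prod_congr rfl (g := fun _ => n)]
    · simp
    · intro i hi
      have : i ≠ j := (Finset.mem_erase.mp hi).1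
      simp [this]
  have hinj : Set.InjOn (fun a : Fin d → ℤ => Function.update a j 1) (Q : Set (Fin d → ℤ)) := by
    intro a ha b hb hab
    have ha' : a ∈ Q := ha
    have hb' : b ∈ Q := hb
    by_contra hne
    have hoff : ∀ i, i ≠ j → a i = b i := by
      intro i hi
      have := congrFun hab i
      simpa [Function.update_of_ne hi] using this
    have hj : b j - a j ≠ 0 := by
      intro h0
      apply hne
      funext i
      by_cases hi : i = j
      · subst hi; linarith
      · exact hoff i hi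
    refine hQ a ha' b hb' hne ⟨b j - a j, hj, fun i => if i = j then 1 else 0, ?_, ?_, ?_⟩
    · intro h0
      have := congrFun h0 j
      simp at this
    · intro i
      by_cases hi : i = j
      · simp [hi]
      · simp [hi]
    · intro i
      by_cases hi : i = j
      · subst hi; simp
      · simp [hi, hoff i hi]
  have himg : Q.image (fun a : Fin d → ℤ => Function.update a j 1) = S := by
    apply Finset.eq_of_subset_of_card_le
    · intro b hb
      obtain ⟨a, ha, rfl⟩ := Finset.mem_image.mp hb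
      rw [hS, Fintype.mem_piFinset]
      intro i
      by_cases hi : i = j
      · subst hi; simp
      · simp only [hi, if_false, Function.update_of_ne hi, Finset.mem_Icc]
        exact hB a ha i
    · rw [Finset.card_image_of_injOn hinj, hc, hScard]
  have hpS : Function.update p j 1 ∈ S := by
    rw [hS, Fintype.mem_piFinset]
    intro i
    by_cases hi : i = j
    · subst hi; simp
    · simp only [hi, if_false, Function.update_of_ne hi, Finset.mem_Icc]
      exact hp i hi
  rw [← himg] at hpS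
  obtain ⟨q, hq, hqe⟩ := Finset.mem_image.mp hpS
  refine ⟨q, hq, ?_⟩
  intro i hi
  have := congrFun hqe i
  simpa [Function.update_of_ne hi] using this

/-- The queens standing over a window `∏_{i ≠ l} {w i, w i + 1}`: their levels fall into pairwise
different classes of any partition of the levels into classes of consecutive pairs. -/
lemma window {n d : ℕ} {Q : Finset (Fin d → ℤ)} (hB : ∀ a ∈ Q, OnBoard n d a)
    (hQ : ∀ a ∈ Q, ∀ b ∈ Q, a ≠ b → ¬ Attacks a b) (hc : Q.card = n ^ (d - 1))
    (l : Fin d) (w : Fin d → ℤ) (hw : ∀ i, i ≠ l → 1 ≤ w i ∧ w i + 1 ≤ (n : ℤ)) :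
    ∃ g : Finset (Fin d) → (Fin d → ℤ),
      (∀ T ∈ (Finset.univ.erase l).powerset, g T ∈ Q ∧
        ∀ i, i ≠ l → w i ≤ g T i ∧ g T i ≤ w i + 1) ∧
      (∀ T ∈ (Finset.univ.erase l).powerset, ∀ T' ∈ (Finset.univ.erase l).powerset,
        |g T l - g T' l| ≤ 1 → T = T') := by
  classical
  have hex : ∀ T : Finset (Fin d), ∃ q ∈ Q, ∀ i, i ≠ l → q i = w i + (if i ∈ T then 1 else 0) := by
    intro T
    apply line hB hQ hc l (fun i => w i + (if i ∈ T then 1 else 0))
    intro i hi
    have := hw i hi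
    by_cases h : i ∈ T
    · simp only [h, if_true]; omega
    · simp only [h, if_false]; omega
  choose g hgQ hg using hex
  refine ⟨g, ?_, ?_⟩
  · intro T _
    refine ⟨hgQ T, ?_⟩
    intro i hi
    rw [hg T i hi]
    by_cases h : i ∈ T
    · simp only [h, if_true]; omega
    · simp only [h, if_false]; omega
  · intro T hT T' hT' hle
    have heq : g T = g T' := by
      apply far hQ (hgQ T) (hgQ T')
      intro i
      by_cases hi : i = l
      · subst hi; exact hle
      · rw [hg T i hi, hg T' i hi]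
        by_cases h : i ∈ T <;> by_cases h' : i ∈ T' <;> simp [h, h']
    rw [Finset.mem_powerset] at hT hT'
    ext i
    by_cases hi : i = l
    · subst hi
      constructor
      · intro h; exact absurd (hT h) (Finset.notMem_erase _ _)
      · intro h; exact absurd (hT' h) (Finset.notMem_erase _ _)
    · have h1 := hg T i hi
      have h2 := hg T' i hi
      rw [heq, h2] at h1
      by_cases h : i ∈ T <;> by_cases h' : i ∈ T' <;> simp [h, h'] at h1 ⊢

/-- Counting classes: if the levels are partitioned by `c` into `N` classes each of which contains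
no two levels of distance at least two, then `2^(d-1) ≤ N`, and if equality holds every class is
met by every window. -/
lemma classes {n d : ℕ} {Q : Finset (Fin d → ℤ)} (hB : ∀ a ∈ Q, OnBoard n d a)
    (hQ : ∀ a ∈ Q, ∀ b ∈ Q, a ≠ b → ¬ Attacks a b) (hc : Q.card = n ^ (d - 1))
    (l : Fin d) (w : Fin d → ℤ) (hw : ∀ i, i ≠ l → 1 ≤ w i ∧ w i + 1 ≤ (n : ℤ))
    (c : ℤ → ℤ) (C : Finset ℤ) (hcC : ∀ z : ℤ, 1 ≤ z → z ≤ n → c z ∈ C)
    (hcc : ∀ z z' : ℤ, c z = c z' → |z - z'| ≤ 1) :
    2 ^ (d - 1) ≤ C.card ∧ (C.card ≤ 2 ^ (d - 1) → ∀ v ∈ C, ∃ q ∈ Q, c (q l) = v ∧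
      ∀ i, i ≠ l → w i ≤ q i ∧ q i ≤ w i + 1) := by
  classical
  obtain ⟨g, hg1, hg2⟩ := window hB hQ hc l w hw
  set P := (Finset.univ.erase l : Finset (Fin d)).powerset with hP
  have hPcard : P.card = 2 ^ (d - 1) := by
    rw [hP, Finset.card_powerset, Finset.card_erase_of_mem (Finset.mem_univ l)]
    simp
  have hinj : Set.InjOn (fun T => c (g T l)) (P : Set (Finset (Fin d))) := by
    intro T hT T' hT' h
    exact hg2 T hT T' hT' (hcc _ _ h)
  have hsub : P.image (fun T => c (g T l)) ⊆ C := by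
    intro v hv
    obtain ⟨T, hT, rfl⟩ := Finset.mem_image.mp hv
    have h1 := hB _ (hg1 T hT).1 l
    exact hcC _ h1.1 h1.2
  have hcard : (P.image (fun T => c (g T l))).card = 2 ^ (d - 1) := by
    rw [Finset.card_image_of_injOn hinj, hPcard]
  refine ⟨?_, ?_⟩
  · rw [← hcard]
    exact Finset.card_le_card hsub
  · intro hle v hv
    have heq : P.image (fun T => c (g T l)) = C :=
      Finset.eq_of_subset_of_card_le hsub (by rw [hcard]; exact hle)
    rw [← heq] at hv
    obtain ⟨T, hT, rfl⟩ := Finset.mem_image.mp hv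
    exact ⟨g T, (hg1 T hT).1, rfl, (hg1 T hT).2⟩

lemma iffNot (P R : Prop) : ((P ↔ ¬ R) ↔ ¬ (P ↔ R)) := by
  by_cases hP : P <;> by_cases hR : R <;> simp [hP, hR]

/-- A two-dimensional pattern in which every two-by-two window meets `G` exactly once cannot meet
all rows and all columns. -/
lemma pattern (n : ℕ) (hn : 2 ≤ n) (G : ℤ → ℤ → Prop)
    (F1 : ∀ x y : ℤ, 1 ≤ x → x + 1 ≤ n → 1 ≤ y → y + 1 ≤ n →
      G x y ∨ G (x + 1) y ∨ G x (y + 1) ∨ G (x + 1) (y + 1))
    (F2 : ∀ x y x' y' : ℤ, G x y → G x' y' → |x - x'| ≤ 1 → |y - y'| ≤ 1 → x = x' ∧ y = y')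
    (F3 : ∀ y : ℤ, 1 ≤ y → y ≤ n → ∃ x : ℤ, 1 ≤ x ∧ x ≤ n ∧ G x y)
    (F4 : ∀ x : ℤ, 1 ≤ x → x ≤ n → ∃ y : ℤ, 1 ≤ y ∧ y ≤ n ∧ G x y) : False := by
  -- in the strip `{y, y+1}` the columns meeting `G` alternate
  have step : ∀ y : ℤ, 1 ≤ y → y + 1 ≤ n → ∀ x : ℤ, 1 ≤ x → x + 1 ≤ n →
      ((G (x + 1) y ∨ G (x + 1) (y + 1)) ↔ ¬ (G x y ∨ G x (y + 1))) := by
    intro y hy1 hy2 x hx1 hx2
    constructor
    · rintro (h | h) (h' | h')
      · have := (F2 _ _ _ _ h h' (by rw [abs_le]; omega) (by rw [abs_le]; omega)).1; omega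
      · have := (F2 _ _ _ _ h h' (by rw [abs_le]; omega) (by rw [abs_le]; omega)).1; omega
      · have := (F2 _ _ _ _ h h' (by rw [abs_le]; omega) (by rw [abs_le]; omega)).1; omega
      · have := (F2 _ _ _ _ h h' (by rw [abs_le]; omega) (by rw [abs_le]; omega)).1; omega
    · intro h
      rcases F1 x y hx1 hx2 hy1 hy2 with h1 | h1 | h1 | h1
      · exact absurd (Or.inl h1) h
      · exact Or.inl h1
      · exact absurd (Or.inr h1) h
      · exact Or.inr h1
  have alt : ∀ y : ℤ, 1 ≤ y → y + 1 ≤ n → ∀ k : ℕ, ∀ x : ℤ, 1 ≤ x → x + k ≤ n →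
      (G x y ∨ G x (y + 1)) → (G (x + k) y ∨ G (x + k) (y + 1)) → Even k := by
    intro y hy1 hy2
    have gen : ∀ k : ℕ, ∀ x : ℤ, 1 ≤ x → x + k ≤ n →
        (((G x y ∨ G x (y + 1)) ↔ (G (x + k) y ∨ G (x + k) (y + 1))) ↔ Even k) := by
      intro k
      induction k with
      | zero => intro x _ _; simp
      | succ k ih =>
        intro x hx1 hx2
        push_cast at hx2
        have h1 := ih x hx1 (by omega)
        have h2 := step y hy1 hy2 (x + k) (by omega) (by omega)
        have e : x + ((k + 1 : ℕ) : ℤ) = x + k + 1 := by push_cast; ring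
        rw [e, Nat.even_add_one, ← h1, h2]
        exact iffNot _ _
    intro k x hx1 hx2 ha hb
    exact (gen k x hx1 hx2).1 ⟨fun _ => hb, fun _ => ha⟩
  have par : ∀ y : ℤ, 1 ≤ y → y + 1 ≤ n → ∀ x x' : ℤ, 1 ≤ x → x ≤ n → 1 ≤ x' → x' ≤ n →
      (G x y ∨ G x (y + 1)) → (G x' y ∨ G x' (y + 1)) → x % 2 = x' % 2 := by
    intro y hy1 hy2 x x' hx1 hx2 hx1' hx2' ha hb
    rcases le_total x x' with h | h
    · obtain ⟨k, hk⟩ := Int.le.dest h
      subst hk
      obtain ⟨m, hm⟩ := alt y hy1 hy2 k x hx1 hx2' ha hb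
      subst hm
      push_cast
      omega
    · obtain ⟨k, hk⟩ := Int.le.dest h
      subst hk
      obtain ⟨m, hm⟩ := alt y hy1 hy2 k x' hx1' hx2 hb ha
      subst hm
      push_cast
      omega
  obtain ⟨x0, hx01, hx02, hG0⟩ := F3 1 le_rfl (by omega)
  have main : ∀ k : ℕ, (1 : ℤ) + k ≤ n → ∀ x : ℤ, 1 ≤ x → x ≤ n → G x (1 + k) →
      x % 2 = x0 % 2 := by
    intro k
    induction k with
    | zero =>
      intro _ x hx1 hx2 hG
      simp only [Nat.cast_zero, add_zero] at hG
      exact par 1 le_rfl (by omega) x x0 hx1 hx2 hx01 hx02 (Or.inl hG) (Or.inl hG0)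
    | succ k ih =>
      intro hk x hx1 hx2 hG
      push_cast at hk hG
      obtain ⟨x1, hx11, hx12, hG1⟩ := F3 (1 + k) (by omega) (by omega)
      have h1 := ih (by omega) x1 hx11 hx12 hG1
      have h2 := par (1 + k) (by omega) (by omega) x x1 hx1 hx2 hx11 hx12
        (Or.inr (by rw [add_assoc]; exact hG)) (Or.inl hG1)
      rw [h2, h1]
  -- a column of the other parity
  have hx' : ∃ x' : ℤ, 1 ≤ x' ∧ x' ≤ n ∧ x' % 2 ≠ x0 % 2 := by
    by_cases h : x0 = 1
    · exact ⟨2, by omega, by omega, by omega⟩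
    · exact ⟨x0 - 1, by omega, by omega, by omega⟩
  obtain ⟨x', h1, h2, h3⟩ := hx'
  obtain ⟨y, hy1, hy2, hG⟩ := F4 x' h1 h2
  obtain ⟨k, hk⟩ := Int.le.dest hy1
  subst hk
  exact h3 (main k hy2 x' h1 h2 hG)

/-- In dimension `d ≥ 3` a solvable board of side `n ≥ 2` has side `n > 2^d`. -/
theorem side_exceeds {n d : ℕ} (hd : 3 ≤ d) (hn : 2 ≤ n) (h : HasSolution n d) : 2 ^ d < n := by
  classical
  obtain ⟨Q, hB, hQ, hc⟩ := h
  obtain ⟨m, rfl⟩ : ∃ m, d = m + 3 := ⟨d - 3, by omega⟩
  have hn1 : 1 ≤ n := by omega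
  set l : Fin (m + 3) := Fin.last (m + 2) with hl
  have h0l : (0 : Fin (m + 3)) ≠ l := by
    rw [hl]; intro h; have := congrArg Fin.val h; simp at this
  have h1l : (1 : Fin (m + 3)) ≠ l := by
    rw [hl]; intro h; have := congrArg Fin.val h; simp at this
  have h01 : (0 : Fin (m + 3)) ≠ 1 := by
    intro h; have := congrArg Fin.val h; simp at this
  -- pairs {1,2}, {3,4}, ...
  have cA := fun (w : Fin (m + 3) → ℤ) (hw : ∀ i, i ≠ l → 1 ≤ w i ∧ w i + 1 ≤ (n : ℤ)) =>
    classes hB hQ hc l w hw (fun z => (z - 1) / 2) (Finset.Icc 0 (((n : ℤ) - 1) / 2))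
      (by intro z h1 h2; rw [Finset.mem_Icc]; constructor <;> omega)
      (by
        intro z z' h
        have h' : (z - 1) / 2 = (z' - 1) / 2 := h
        rw [abs_le]; constructor <;> omega)
  -- pairs {1}, {2,3}, {4,5}, ...
  have cB := fun (w : Fin (m + 3) → ℤ) (hw : ∀ i, i ≠ l → 1 ≤ w i ∧ w i + 1 ≤ (n : ℤ)) =>
    classes hB hQ hc l w hw (fun z => z / 2) (Finset.Icc 0 ((n : ℤ) / 2))
      (by intro z h1 h2; rw [Finset.mem_Icc]; constructor <;> omega)
      (by
        intro z z' h
        have h' : z / 2 = z' / 2 := h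
        rw [abs_le]; constructor <;> omega)
  have hpow : 2 ^ (m + 3) = 2 * 2 ^ (m + 2) := by ring
  have hd1 : m + 3 - 1 = m + 2 := by omega
  rw [hd1] at cA cB
  have hcardA : (Finset.Icc (0 : ℤ) (((n : ℤ) - 1) / 2)).card = (n - 1) / 2 + 1 := by
    rw [Int.card_Icc]; omega
  have hcardB : (Finset.Icc (0 : ℤ) ((n : ℤ) / 2)).card = n / 2 + 1 := by
    rw [Int.card_Icc]; omega
  rw [hcardA] at cA
  rw [hcardB] at cB
  by_contra hlt
  push Not at hlt
  have hlow := (cA (fun _ => 1) (fun i _ => by constructor <;> omega)).1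
  have hcases : n + 1 = 2 ^ (m + 3) ∨ n = 2 ^ (m + 3) := by omega
  rcases hcases with hcase | hcase
  · -- side `2^d - 1`: every window meets level 1, so no queen stands on level 2
    obtain ⟨q, hq, hqe⟩ := line hB hQ hc 0 (fun i => if i = l then 2 else 1) (by
      intro i _
      by_cases hi : i = l
      · simp only [hi, if_true]; omega
      · simp only [hi, if_false]; omega)
    have hql : q l = 2 := by
      have := hqe l (Ne.symm h0l)
      simpa using this
    have hqB := hB q hq
    obtain ⟨q', hq', hc', hw'⟩ := (cB (fun i => min (q i) ((n : ℤ) - 1)) (by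
      intro i _
      have := hqB i
      constructor
      · rw [le_min_iff]; constructor
        · exact this.1
        · omega
      · have := min_le_right (q i) ((n : ℤ) - 1); omega)).2 (by omega) 0 (by
        rw [Finset.mem_Icc]; constructor <;> omega)
    have hq'B := hB q' hq' l
    have hq'l : q' l = 1 := by
      have hc'' : q' l / 2 = 0 := hc'
      omega
    have heq : q = q' := by
      apply far hQ hq hq'
      intro i
      by_cases hi : i = l
      · rw [hi, hql, hq'l]; norm_num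
      · have h1 := hw' i hi
        have h2 := hqB i
        rw [abs_le]
        rcases min_cases (q i) ((n : ℤ) - 1) with ⟨e, _⟩ | ⟨e, _⟩ <;> rw [e] at h1 <;>
          constructor <;> omega
    rw [heq, hq'l] at hql
    omega
  · -- side `2^d`
    set G : ℤ → ℤ → Prop := fun x y => ∃ q ∈ Q, q 0 = x ∧ q 1 = y ∧
      ∀ i, i ≠ 0 → i ≠ 1 → (q i = 1 ∨ q i = 2) with hG
    refine pattern n hn G ?_ ?_ ?_ ?_
    · intro x y hx1 hx2 hy1 hy2
      obtain ⟨q, hq, hcq, hwq⟩ := (cA (fun i => if i = 0 then x else if i = 1 then y else 1) (by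
        intro i _
        by_cases hi0 : i = 0
        · simp only [hi0, if_true]; omega
        · by_cases hi1 : i = 1
          · simp only [hi1, if_true]
            rw [if_neg (Ne.symm h01)]; omega
          · simp only [hi0, hi1, if_false]; omega)).2 (by omega) 0 (by
          rw [Finset.mem_Icc]; constructor <;> omega)
      have hq0 := hwq 0 h0l
      have hq1 := hwq 1 h1l
      simp only [if_true] at hq0
      rw [if_neg (Ne.symm h01), if_pos rfl] at hq1
      have hql := hB q hq l
      have hrest : ∀ i, i ≠ 0 → i ≠ 1 → (q i = 1 ∨ q i = 2) := by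
        intro i hi0 hi1
        by_cases hi : i = l
        · subst hi
          have hcq' : (q l - 1) / 2 = 0 := hcq
          omega
        · have := hwq i hi
          simp only [hi0, hi1, if_false] at this
          omega
      have key : G (q 0) (q 1) := ⟨q, hq, rfl, rfl, hrest⟩
      have hx : q 0 = x ∨ q 0 = x + 1 := by omega
      have hy : q 1 = y ∨ q 1 = y + 1 := by omega
      rcases hx with hx | hx <;> rcases hy with hy | hy <;> rw [hx, hy] at key
      · exact Or.inl key
      · exact Or.inr (Or.inr (Or.inl key))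
      · exact Or.inr (Or.inl key)
      · exact Or.inr (Or.inr (Or.inr key))
    · rintro x y x' y' ⟨q, hq, hq0, hq1, hqr⟩ ⟨q', hq', hq0', hq1', hqr'⟩ hxx hyy
      have heq : q = q' := by
        apply far hQ hq hq'
        intro i
        by_cases hi0 : i = 0
        · rw [hi0, hq0, hq0']; exact hxx
        · by_cases hi1 : i = 1
          · rw [hi1, hq1, hq1']; exact hyy
          · have h1 := hqr i hi0 hi1
            have h2 := hqr' i hi0 hi1
            rw [abs_le]
            constructor <;> omega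
      rw [heq] at hq0 hq1
      exact ⟨by rw [← hq0, hq0'], by rw [← hq1, hq1']⟩
    · intro y hy1 hy2
      obtain ⟨q, hq, hqe⟩ := line hB hQ hc 0 (fun i => if i = 1 then y else 1) (by
        intro i _
        by_cases hi : i = 1
        · simp only [hi, if_true]; omega
        · simp only [hi, if_false]; omega)
      refine ⟨q 0, (hB q hq 0).1, (hB q hq 0).2, q, hq, rfl, ?_, ?_⟩
      · have := hqe 1 (Ne.symm h01)
        simpa using this
      · intro i hi0 hi1
        have := hqe i hi0
        simp only [hi1, if_false] at this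
        exact Or.inl this
    · intro x hx1 hx2
      obtain ⟨q, hq, hqe⟩ := line hB hQ hc 1 (fun i => if i = 0 then x else 1) (by
        intro i _
        by_cases hi : i = 0
        · simp only [hi, if_true]; omega
        · simp only [hi, if_false]; omega)
      refine ⟨q 1, (hB q hq 1).1, (hB q hq 1).2, q, hq, ?_, rfl, ?_⟩
      · have := hqe 0 h01
        simpa using this
      · intro i hi0 hi1
        have := hqe i hi1
        simp only [hi0, if_false] at this
        exact Or.inl this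

/-- For every dimension `d ≥ 3`: a solvable board of side `n ≥ 2` has side larger than `2^d`; hence
for `1 ≤ n ≤ 2^d` the `(n,d)`-queens problem is solvable exactly when `gcd (n, (2^d - 1)!) = 1`. -/
theorem result :
    (∀ d n : ℕ, 3 ≤ d → 2 ≤ n → HasSolution n d → 2 ^ d < n) ∧
    (∀ d n : ℕ, 3 ≤ d → 1 ≤ n → n ≤ 2 ^ d →
      (HasSolution n d ↔ Nat.gcd n (Nat.factorial (2 ^ d - 1)) = 1)) := by
  refine ⟨fun d n hd hn h => side_exceeds hd hn h, ?_⟩
  intro d n hd hn1 hn2
  have h8 : 8 ≤ 2 ^ d := by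
    calc 8 = 2 ^ 3 := by norm_num
      _ ≤ 2 ^ d := Nat.pow_le_pow_right (by norm_num) hd
  constructor
  · intro h
    by_cases hn : 2 ≤ n
    · exact absurd (side_exceeds hd hn h) (by omega)
    · have : n = 1 := by omega
      subst this
      simp
  · intro h
    have hn : n = 1 := by
      by_contra hne
      by_cases hlt : n ≤ 2 ^ d - 1
      · have hdvd : n ∣ Nat.factorial (2 ^ d - 1) := Nat.dvd_factorial (by omega) hlt
        rw [Nat.gcd_eq_left hdvd] at h
        exact hne h
      · have hn' : n = 2 ^ d := by omega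
        have h2a : 2 ∣ n := by
          rw [hn']; exact dvd_pow_self 2 (by omega)
        have h2b : 2 ∣ Nat.factorial (2 ^ d - 1) := Nat.dvd_factorial (by norm_num) (by omega)
        have := Nat.dvd_gcd h2a h2b
        rw [h] at this
        omega
    subst hn
    refine ⟨{fun _ => 1}, ?_, ?_, ?_⟩
    · intro a ha i
      rw [Finset.mem_singleton] at ha
      subst ha
      simp
    · intro a ha b hb hab
      rw [Finset.mem_singleton] at ha hb
      exact absurd (ha.trans hb.symm) hab
    · simp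

end Pool.Agent.Results.MP_7f0846_co.SideExceedsTwoPow
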